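import Pool.Agent.Lib.MP_91598f_pr.NU.Walk

/-!
# Ergodic, not uniformly ergodic; positive rates
-/

open MeasureTheory ProbabilityTheory Filter Topology Set
open scoped ENNReal

namespace PCABern.NU

set_option linter.unusedVariables false
set_option linter.unusedSectionVars false

/-- the empty configuration -/
def O : Config (Fin 4) 1 := fun _ => 0

theorem evolve_O : Φ.evolve (Measure.dirac O) = Measure.dirac O := by
  unfold PCA.evolve
  rw [Measure.dirac_bind (measurable_step Φ)]
  unfold PCA.step
  have : (fun i : Site 1 => Φ.rule (fun n : Φ.N => O (i + n.1)))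
      = fun i => Measure.dirac (O i) := by
    funext i
    rw [rule_eq]
    change loc 0 0 0 = Measure.dirac 0
    have hK : ¬ kk 0 0 := by
      rintro (h | h | h) <;> exact absurd h (by decide)
    refine loc_zz hK ?_
    rintro ⟨-, -, h⟩
    exact absurd h (by decide)
  rw [this]
  exact Measure.infinitePi_dirac O

theorem evolve_site (μ : Measure (Config (Fin 4) 1)) [IsProbabilityMeasure μ] (j : ℤ) :
    Tendsto (fun t => (Φ.evolve^[t] μ {y | at' y j ∈ ({0}ᶜ : Set (Fin 4))}).toReal)
      atTop (𝓝 0) := by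
  have hE := measurableSet_at j ({0}ᶜ : Set (Fin 4))
  have hm : ∀ t, Measurable (fun x => (Φ.K t x {y | at' y j ∈ ({0}ᶜ : Set (Fin 4))}).toReal) :=
    fun t => ((Measure.measurable_coe hE).comp (measurable_K Φ t)).ennreal_toReal
  have e : ∀ t, (Φ.evolve^[t] μ {y | at' y j ∈ ({0}ᶜ : Set (Fin 4))}).toReal
      = ∫ x, (Φ.K t x {y | at' y j ∈ ({0}ᶜ : Set (Fin 4))}).toReal ∂μ := by
    intro t
    rw [evolve_iterate, Measure.bind_apply hE (measurable_K Φ t).aemeasurable, integral_toReal]
    · exact ((Measure.measurable_coe hE).comp (measurable_K Φ t)).aemeasurable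
    · refine Eventually.of_forall (fun x => ?_)
      have := prob_K Φ t x
      exact measure_lt_top _ _
  simp only [e]
  have h0 : (0 : ℝ) = ∫ _x : Config (Fin 4) 1, (0 : ℝ) ∂μ := by simp
  rw [h0]
  refine tendsto_integral_of_dominated_convergence (fun _ => 1)
    (fun t => (hm t).aestronglyMeasurable) (integrable_const _) ?_ ?_
  · intro t
    refine Eventually.of_forall (fun x => ?_)
    have := prob_K Φ t x
    rw [Real.norm_eq_abs, abs_of_nonneg ENNReal.toReal_nonneg]
    exact measureReal_le_one
  · exact Eventually.of_forall (fun x => tendsto_site x j)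

theorem prob_evolve (t : ℕ) (μ : Measure (Config (Fin 4) 1)) [IsProbabilityMeasure μ] :
    IsProbabilityMeasure (Φ.evolve^[t] μ) := by
  rw [evolve_iterate]
  exact prob_bind _ _ (measurable_K Φ t) (prob_K Φ t)

theorem evolve_cyl (μ : Measure (Config (Fin 4) 1)) [IsProbabilityMeasure μ]
    (F : Finset (Site 1)) (u : F → Fin 4) :
    Tendsto (fun t => Φ.evolve^[t] μ (cyl F u)) atTop (𝓝 (Measure.dirac O (cyl F u))) := by
  have hp : ∀ t, IsProbabilityMeasure (Φ.evolve^[t] μ) := fun t => prob_evolve t μ
  have hcyl := measurableSet_cyl F u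
  rw [← ENNReal.tendsto_toReal_iff (fun t => measure_ne_top _ _) (measure_ne_top _ _)]
  by_cases hu : ∃ i : F, u i ≠ 0
  · obtain ⟨i, hi⟩ := hu
    have h0 : Measure.dirac O (cyl F u) = 0 := by
      rw [Measure.dirac_apply' _ hcyl, indicator_of_notMem]
      intro h
      exact hi (h i).symm
    rw [h0, ENNReal.toReal_zero]
    refine squeeze_zero (fun _ => ENNReal.toReal_nonneg) (fun t => ?_) (evolve_site μ (i.1 0))
    refine ENNReal.toReal_mono (measure_ne_top _ _) (measure_mono ?_)
    intro y hy
    have h1 : y i.1 = u i := hy i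
    have h2 : at' y (i.1 0) = y i.1 := by
      unfold at'
      rw [← eq_s]
    change at' y (i.1 0) ∉ ({0} : Set (Fin 4))
    rw [h2, h1]
    exact hi
  · push Not at hu
    have h1 : Measure.dirac O (cyl F u) = 1 := by
      rw [Measure.dirac_apply' _ hcyl, indicator_of_mem]
      · rfl
      · intro i
        exact (hu i).symm
    rw [h1, ENNReal.toReal_one]
    have hsum : Tendsto (fun t => 1 - ∑ i : F,
        (Φ.evolve^[t] μ {y | at' y (i.1 0) ∈ ({0}ᶜ : Set (Fin 4))}).toReal) atTop (𝓝 (1 - 0)) := by
      refine tendsto_const_nhds.sub ?_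
      have : (0 : ℝ) = ∑ i : F, (0 : ℝ) := by simp
      rw [this]
      exact tendsto_finsetSum _ (fun i _ => evolve_site μ _)
    rw [sub_zero] at hsum
    refine tendsto_of_tendsto_of_tendsto_of_le_of_le hsum tendsto_const_nhds (fun t => ?_)
      (fun t => measureReal_le_one)
    have h2 : (cyl F u)ᶜ ⊆ ⋃ i : F, {y | at' y (i.1 0) ∈ ({0}ᶜ : Set (Fin 4))} := by
      intro y hy
      have : ∃ i : F, y i.1 ≠ u i := by
        by_contra hcon
        push Not at hcon
        exact hy hcon
      obtain ⟨i, hi⟩ := this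
      rw [mem_iUnion]
      refine ⟨i, ?_⟩
      have h2 : at' y (i.1 0) = y i.1 := by
        unfold at'
        rw [← eq_s]
      change at' y (i.1 0) ∉ ({0} : Set (Fin 4))
      rw [h2]
      rw [hu i] at hi
      exact hi
    have h3 : (Φ.evolve^[t] μ).real (cyl F u)ᶜ ≤ ∑ i : F,
        (Φ.evolve^[t] μ).real {y | at' y (i.1 0) ∈ ({0}ᶜ : Set (Fin 4))} := by
      refine (measureReal_mono h2).trans ?_
      exact measureReal_iUnion_fintype_le _
    have h4 : (Φ.evolve^[t] μ).real (cyl F u)ᶜ = 1 - (Φ.evolve^[t] μ).real (cyl F u) :=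
      probReal_compl_eq_one_sub hcyl
    rw [h4] at h3
    change 1 - ∑ i : F, (Φ.evolve^[t] μ).real {y | at' y (i.1 0) ∈ ({0}ᶜ : Set (Fin 4))}
      ≤ (Φ.evolve^[t] μ).real (cyl F u)
    linarith

theorem unique (ν : Measure (Config (Fin 4) 1)) [IsProbabilityMeasure ν] (h : Φ.evolve ν = ν) :
    ν = Measure.dirac O := by
  have hit : ∀ t, Φ.evolve^[t] ν = ν := fun t => Function.iterate_fixed h t
  have h0 : ∀ j, ν {y | at' y j ∈ ({0}ᶜ : Set (Fin 4))} = 0 := by
    intro j
    have h1 := evolve_site ν j
    simp only [hit] at h1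
    have h2 := tendsto_nhds_unique h1 tendsto_const_nhds
    exact ((ENNReal.toReal_eq_zero_iff _).1 h2.symm).resolve_right (measure_ne_top _ _)
  have hae : ∀ᵐ y ∂ν, y = O := by
    have h1 : ∀ᵐ y ∂ν, ∀ i : Site 1, y i = 0 := by
      rw [ae_all_iff]
      intro i
      rw [ae_iff]
      have h2 := h0 (i 0)
      have h3 : {y : Config (Fin 4) 1 | ¬ y i = 0} = {y | at' y (i 0) ∈ ({0}ᶜ : Set (Fin 4))} := by
        ext y
        have h4 : at' y (i 0) = y i := by
          unfold at'
          rw [← eq_s]
        change _ ↔ at' y (i 0) ∉ ({0} : Set (Fin 4))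
        rw [h4]
        rfl
      rw [h3]
      exact h2
    filter_upwards [h1] with y hy
    funext i
    exact hy i
  ext E hE
  rw [Measure.dirac_apply' _ hE]
  by_cases hO : O ∈ E
  · rw [indicator_of_mem hO]
    have : ∀ᵐ y ∂ν, y ∈ E := by
      filter_upwards [hae] with y hy
      rw [hy]; exact hO
    have h2 := (prob_compl_eq_zero_iff hE).1 this
    rw [h2]
    rfl
  · rw [indicator_of_notMem hO]
    have : ∀ᵐ y ∂ν, y ∉ E := by
      filter_upwards [hae] with y hy
      rw [hy]; exact hO
    rw [ae_iff] at this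
    simp only [not_not] at this
    exact this

theorem ergodic : Φ.Ergodic (Measure.dirac O) :=
  ⟨inferInstance, evolve_O, fun ν hν h => unique ν h, fun μ hμ F u => evolve_cyl μ F u⟩

/-- a particle at `-t` arrives at the origin at time `t` -/
def lone (t : ℕ) : Config (Fin 4) 1 := fun i => if i 0 = -t then 3 else 0

theorem clear_lone (t : ℕ) : Clear t 0 (lone t) := by
  constructor
  · have : at' (lone t) (0 - t) = if ((0 : ℤ) - t) = -t then 3 else 0 := rfl
    rw [this, if_pos (by ring)]
  · intro a ha
    have : at' (lone t) a = if a = -t then 3 else 0 := rfl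
    rw [this, if_neg (by linarith)]

theorem not_uniform (t : ℕ) :
    Φ.evolve^[t] (Measure.dirac (lone t)) (cyl {s 0} (fun _ => (3 : Fin 4))) = 1 := by
  have h1 := K_clear t 0 (lone t) (clear_lone t)
  rw [K_eq_evolve] at h1
  have h2 : (cyl {s 0} (fun _ => (3 : Fin 4)) : Set (Config (Fin 4) 1))
      = {y | at' y 0 ∈ ({3} : Set (Fin 4))} := by
    ext y
    simp only [cyl, mem_setOf_eq, mem_singleton_iff]
    constructor
    · intro h
      exact h ⟨s 0, by simp⟩
    · rintro h ⟨i, hi⟩
      rw [Finset.mem_singleton] at hi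
      subst hi
      exact h
  rw [h2]
  exact h1

theorem dirac_cyl : Measure.dirac O (cyl {s 0} (fun _ => (3 : Fin 4))) = 0 := by
  rw [Measure.dirac_apply' _ (measurableSet_cyl _ _), indicator_of_notMem]
  intro h
  have := h ⟨s 0, by simp⟩
  exact absurd this (by decide)

end PCABern.NU

namespace PCABern

variable {A : Type} [Finite A] [Nonempty A] [MeasurableSpace A] [MeasurableSingletonClass A]
  {d : ℕ}

/-- An ergodic PCA with positive local probabilities is uniformly ergodic. -/
theorem uniformlyErgodic_of_pos {Φ : PCA A d} {π : Measure (Config A d)} (h : Φ.Ergodic π)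
    (hpos : ∀ u a, Φ.rule u {a} ≠ 0) : Φ.UniformlyErgodic π := by
  classical
  have hp : IsProbabilityMeasure π := h.1
  refine uniformlyErgodic_of_full h (fun F u h0 => ?_)
  have hcyl := measurableSet_cyl F u
  have h1 : π (cyl F u) = ∫⁻ x, Φ.step x (cyl F u) ∂π := by
    conv_lhs => rw [← h.2.1]
    unfold PCA.evolve
    rw [Measure.bind_apply hcyl (measurable_step Φ).aemeasurable]
  have hmst : Measurable (fun x => Φ.step x (cyl F u)) :=
    (Measure.measurable_coe hcyl).comp (measurable_step Φ)
  rw [h1, lintegral_eq_zero_iff hmst] at h0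
  have h2 : ∀ x, Φ.step x (cyl F u) ≠ 0 := by
    intro x
    obtain ⟨a⟩ := ‹Nonempty A›
    have e : cyl F u = Set.pi (F : Set (Site d))
        (fun i => if hi : i ∈ F then ({u ⟨i, hi⟩} : Set A) else {a}) := by
      ext y
      simp only [cyl, mem_setOf_eq, Set.mem_pi, Finset.mem_coe]
      constructor
      · intro hy i hi
        rw [dif_pos hi]
        exact hy ⟨i, hi⟩
      · rintro hy ⟨i, hi⟩
        have := hy i hi
        rw [dif_pos hi] at this
        exact this
    rw [e]
    unfold PCA.step
    rw [Measure.infinitePi_pi]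
    · rw [Finset.prod_ne_zero_iff]
      intro i hi
      rw [dif_pos hi]
      exact hpos _ _
    · intro i hi
      rw [dif_pos hi]
      exact measurableSet_singleton _
  have h3 : ∀ᵐ x ∂π, False := by
    filter_upwards [h0] with x hx
    exact h2 x hx
  rw [ae_iff] at h3
  simp at h3

end PCABern
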