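import Pool.Agent.Lib.MP_91598f_pr.NU.Path

/-!
# The walkers: recursion for the probability that an interval is occupied
-/

open MeasureTheory ProbabilityTheory Filter Topology Set
open scoped ENNReal

namespace PCABern.NU

set_option linter.unusedVariables false
set_option linter.unusedSectionVars false

/-- a walker will be present in `[a, a + n)` at the next time -/
def OccS (a : ℤ) (n : ℕ) : Set (Config (Fin 4) 1) := {y | ∃ i : ℕ, i < n ∧ KK y (a + i)}

/-- a particle is present in `[a, a + n)` -/
def PartS (a : ℤ) (n : ℕ) : Set (Config (Fin 4) 1) :=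
  {y | ∃ i : ℕ, i < n ∧ at' y (a + i) ∈ ({3} : Set (Fin 4))}

theorem measurableSet_KK (j : ℤ) : MeasurableSet {y : Config (Fin 4) 1 | KK y j} := by
  have : {y : Config (Fin 4) 1 | KK y j}
      = {y | at' y j ∈ ({1, 3} : Set (Fin 4))} ∪ {y | at' y (j + 1) ∈ ({2} : Set (Fin 4))} := by
    ext y
    simp only [KK, kk, mem_setOf_eq, mem_union, mem_insert_iff, mem_singleton_iff]
    tauto
  rw [this]
  exact (measurableSet_at _ _).union (measurableSet_at _ _)

theorem measurableSet_OccS (a : ℤ) (n : ℕ) : MeasurableSet (OccS a n) := by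
  have : OccS a n = ⋃ i ∈ Finset.range n, {y : Config (Fin 4) 1 | KK y (a + i)} := by
    ext y
    simp [OccS]
  rw [this]
  exact Finset.measurableSet_biUnion _ (fun i _ => measurableSet_KK _)

theorem measurableSet_PartS (a : ℤ) (n : ℕ) : MeasurableSet (PartS a n) := by
  have : PartS a n = ⋃ i ∈ Finset.range n,
      {y : Config (Fin 4) 1 | at' y (a + i) ∈ ({3} : Set (Fin 4))} := by
    ext y
    simp [PartS]
  rw [this]
  exact Finset.measurableSet_biUnion _ (fun i _ => measurableSet_at _ _)

theorem OccS_mono {a b : ℤ} {n m : ℕ} (h1 : b ≤ a) (h2 : a + n ≤ b + m) : OccS a n ⊆ OccS b m := by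
  rintro y ⟨i, hi, hy⟩
  refine ⟨(a + i - b).toNat, ?_, ?_⟩
  · have : (i : ℤ) < n := by exact_mod_cast hi
    have : ((a + i - b).toNat : ℤ) = a + i - b := Int.toNat_of_nonneg (by linarith [Int.natCast_nonneg i])
    omega
  · have : ((a + i - b).toNat : ℤ) = a + i - b := Int.toNat_of_nonneg (by linarith [Int.natCast_nonneg i])
    rw [this]
    have e : b + (a + i - b) = a + i := by ring
    rw [e]
    exact hy

theorem step_one {z : Config (Fin 4) 1} {j : ℤ} (h : KK z j) :
    Φ.step z {y | at' y j ∈ ({1} : Set (Fin 4))} = 2⁻¹ := by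
  rw [step_eval, loc_kk h]
  simp [Measure.dirac_apply' _ (MeasurableSet.of_discrete)]

theorem step_two {z : Config (Fin 4) 1} {j : ℤ} (h : KK z j) :
    Φ.step z {y | at' y j ∈ ({2} : Set (Fin 4))} = 2⁻¹ := by
  rw [step_eval, loc_kk h]
  simp [Measure.dirac_apply' _ (MeasurableSet.of_discrete)]

theorem step_both {z : Config (Fin 4) 1} {a b : ℤ} (hab : a ≠ b) (ha : KK z a) (hb : KK z b) :
    Φ.step z ({y | at' y a ∈ ({1} : Set (Fin 4))} ∪ {y | at' y b ∈ ({2} : Set (Fin 4))})
      = 1 - 4⁻¹ := by
  classical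
  have hne : s a ≠ s b := fun h => hab (s_inj h)
  have hcompl : ({y : Config (Fin 4) 1 | at' y a ∈ ({1} : Set (Fin 4))}
      ∪ {y | at' y b ∈ ({2} : Set (Fin 4))})ᶜ
      = Set.pi (({s a, s b} : Finset (Site 1)) : Set (Site 1))
        (fun i => if i = s a then ({1}ᶜ : Set (Fin 4)) else {2}ᶜ) := by
    ext y
    simp only [mem_compl_iff, mem_union, mem_setOf_eq, not_or, Finset.coe_insert,
      Finset.coe_singleton, Set.mem_pi, mem_insert_iff, mem_singleton_iff, forall_eq_or_imp,
      forall_eq, if_true, if_neg (Ne.symm hne)]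
    rfl
  have h1 : Φ.step z (({y : Config (Fin 4) 1 | at' y a ∈ ({1} : Set (Fin 4))}
      ∪ {y | at' y b ∈ ({2} : Set (Fin 4))})ᶜ) = 4⁻¹ := by
    rw [hcompl]
    unfold PCA.step
    rw [Measure.infinitePi_pi _ (fun i _ => MeasurableSet.of_discrete), Finset.prod_pair hne]
    have ea : Φ.rule (fun n : Φ.N => z (s a + n.1))
        = loc (at' z (a - 1)) (at' z a) (at' z (a + 1)) := rule_eq z (s a)
    have eb : Φ.rule (fun n : Φ.N => z (s b + n.1))
        = loc (at' z (b - 1)) (at' z b) (at' z (b + 1)) := rule_eq z (s b)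
    rw [ea, eb, loc_kk ha, loc_kk hb, if_pos rfl, if_neg (Ne.symm hne)]
    have e4 : (4 : ℝ≥0∞)⁻¹ = 2⁻¹ * 2⁻¹ := by
      rw [← ENNReal.mul_inv (Or.inl (by norm_num)) (Or.inl (by norm_num))]
      norm_num
    rw [e4]
    simp [Measure.dirac_apply' _ (MeasurableSet.of_discrete)]
  have h2 := prob_compl_eq_one_sub (μ := Φ.step z)
    (((measurableSet_at a ({1} : Set (Fin 4))).union (measurableSet_at b ({2} : Set (Fin 4)))).compl)
  rw [compl_compl, h1] at h2
  exact h2

theorem half_le {X : ℝ≥0∞} (h : 2 ≤ X) : (2 : ℝ≥0∞)⁻¹ ≤ 4⁻¹ * X := by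
  have e4 : (4 : ℝ≥0∞)⁻¹ = 2⁻¹ * 2⁻¹ := by
    rw [← ENNReal.mul_inv (Or.inl (by norm_num)) (Or.inl (by norm_num))]
    norm_num
  have e : (4 : ℝ≥0∞)⁻¹ * 2 = 2⁻¹ := by
    rw [e4, mul_assoc, ENNReal.inv_mul_cancel (by norm_num) (by norm_num), mul_one]
  rw [← e]
  gcongr

/-- the one-step inequality -/
theorem step_occ (z : Config (Fin 4) 1) (a : ℤ) (m : ℕ) :
    Φ.step z (OccS a (m + 1)) ≤
      4⁻¹ * ((OccS a (m + 1)).indicator 1 z + (OccS a (m + 2)).indicator 1 z
        + (OccS (a + 1) m).indicator 1 z + (OccS (a + 1) (m + 1)).indicator 1 z)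
      + Φ.step z (PartS a (m + 1)) := by
  have q4 : (4 : ℝ≥0∞)⁻¹ * 4 = 1 := ENNReal.inv_mul_cancel (by norm_num) (by norm_num)
  by_cases hA : z ∈ OccS (a + 1) m
  · have h1 : z ∈ OccS a (m + 1) := OccS_mono (by linarith) (by push_cast; linarith) hA
    have h2 : z ∈ OccS a (m + 2) := OccS_mono (by linarith) (by push_cast; linarith) hA
    have h3 : z ∈ OccS (a + 1) (m + 1) := OccS_mono (by linarith) (by push_cast; linarith) hA
    rw [indicator_of_mem hA, indicator_of_mem h1, indicator_of_mem h2, indicator_of_mem h3]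
    refine le_trans prob_le_one (le_trans ?_ le_self_add)
    simp only [Pi.one_apply]
    rw [show (1 : ℝ≥0∞) + 1 + 1 + 1 = 4 by norm_num, q4]
  · -- the only possible walkers
    have hsub : ∀ᵐ y ∂(Φ.step z), y ∈ OccS a (m + 1) →
        y ∈ ({y | at' y a ∈ ({1} : Set (Fin 4)) ∧ KK z a}
          ∪ {y | at' y (a + m + 1) ∈ ({2} : Set (Fin 4)) ∧ KK z (a + m + 1)})
          ∪ PartS a (m + 1) := by
      filter_upwards [ae_compat z] with y hy
      rintro ⟨i, hi, hK⟩
      by_cases hP : y ∈ PartS a (m + 1)
      · exact Or.inr hP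
      left
      have back : ∀ j : ℤ, (at' y j = 1 ∨ at' y j = 2) → KK z j := by
        intro j hj
        by_contra hn
        by_cases hp : PP z j
        · have := (hy j).2.1 hp
          rcases hj with h | h <;> rw [h] at this <;> exact absurd this (by decide)
        · have := (hy j).2.2 hn hp
          rcases hj with h | h <;> rw [h] at this <;> exact absurd this (by decide)
      rcases hK with h | h | h
      · have hk := back _ (Or.inl h)
        rcases Nat.eq_zero_or_pos i with h0 | h0
        · subst h0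
          left
          simp only [Nat.cast_zero, add_zero] at h hk
          exact ⟨h, hk⟩
        · exfalso
          refine hA ⟨i - 1, by omega, ?_⟩
          have e : a + 1 + ((i - 1 : ℕ) : ℤ) = a + i := by
            push_cast [Nat.cast_sub h0]; ring
          rw [e]
          exact hk
      · exact absurd ⟨i, hi, h⟩ hP
      · have hk := back _ (Or.inr h)
        rcases Nat.lt_or_ge i m with h0 | h0
        · exfalso
          refine hA ⟨i, h0, ?_⟩
          have e : a + 1 + (i : ℤ) = a + i + 1 := by ring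
          rw [e]
          exact hk
        · have e : i = m := by omega
          subst e
          right
          exact ⟨h, hk⟩
    have hle : Φ.step z (OccS a (m + 1)) ≤
        Φ.step z ({y | at' y a ∈ ({1} : Set (Fin 4)) ∧ KK z a}
          ∪ {y | at' y (a + m + 1) ∈ ({2} : Set (Fin 4)) ∧ KK z (a + m + 1)})
          + Φ.step z (PartS a (m + 1)) :=
      (measure_mono_ae hsub).trans (measure_union_le _ _)
    refine hle.trans (add_le_add ?_ le_rfl)
    by_cases hKa : KK z a
    · have h1 : z ∈ OccS a (m + 1) := ⟨0, by omega, by simpa using hKa⟩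
      have h2 : z ∈ OccS a (m + 2) := ⟨0, by omega, by simpa using hKa⟩
      rw [indicator_of_mem h1, indicator_of_mem h2]
      by_cases hKb : KK z (a + m + 1)
      · have h3 : z ∈ OccS (a + 1) (m + 1) := ⟨m, by omega, by
          have e : a + 1 + (m : ℤ) = a + m + 1 := by ring
          rw [e]; exact hKb⟩
        rw [indicator_of_mem h3, indicator_of_notMem hA]
        have hab : a ≠ a + m + 1 := by
          have : (0 : ℤ) ≤ m := Int.natCast_nonneg _
          intro h
          linarith
        have h4 := step_both hab hKa hKb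
        have h5 : ({y | at' y a ∈ ({1} : Set (Fin 4)) ∧ KK z a}
            ∪ {y | at' y (a + m + 1) ∈ ({2} : Set (Fin 4)) ∧ KK z (a + m + 1)})
            ⊆ ({y | at' y a ∈ ({1} : Set (Fin 4))}
              ∪ {y | at' y (a + m + 1) ∈ ({2} : Set (Fin 4))}) := by
          rintro y (hy | hy)
          · exact Or.inl hy.1
          · exact Or.inr hy.1
        refine (measure_mono h5).trans ?_
        rw [h4]
        simp only [Pi.one_apply]
        rw [tsub_le_iff_right]
        have : (4 : ℝ≥0∞)⁻¹ * (1 + 1 + 0 + 1) + 4⁻¹ = 4⁻¹ * 4 := by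
          rw [← mul_one (4 : ℝ≥0∞)⁻¹, mul_assoc, one_mul, ← mul_add]
          norm_num
        rw [this, q4]
      · have h5 : ({y | at' y a ∈ ({1} : Set (Fin 4)) ∧ KK z a}
            ∪ {y | at' y (a + m + 1) ∈ ({2} : Set (Fin 4)) ∧ KK z (a + m + 1)})
            ⊆ {y | at' y a ∈ ({1} : Set (Fin 4))} := by
          rintro y (hy | hy)
          · exact hy.1
          · exact absurd hy.2 hKb
        refine (measure_mono h5).trans ?_
        rw [step_one hKa]
        refine half_le ?_
        simp only [Pi.one_apply]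
        rw [add_assoc, show (1 : ℝ≥0∞) + 1 = 2 by norm_num]
        exact le_self_add
    · by_cases hKb : KK z (a + m + 1)
      · have h3 : z ∈ OccS (a + 1) (m + 1) := ⟨m, by omega, by
          have e : a + 1 + (m : ℤ) = a + m + 1 := by ring
          rw [e]; exact hKb⟩
        have h2 : z ∈ OccS a (m + 2) := OccS_mono (by linarith) (by push_cast; linarith) h3
        rw [indicator_of_mem h3, indicator_of_mem h2]
        have h5 : ({y | at' y a ∈ ({1} : Set (Fin 4)) ∧ KK z a}
            ∪ {y | at' y (a + m + 1) ∈ ({2} : Set (Fin 4)) ∧ KK z (a + m + 1)})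
            ⊆ {y | at' y (a + m + 1) ∈ ({2} : Set (Fin 4))} := by
          rintro y (hy | hy)
          · exact absurd hy.2 hKa
          · exact hy.1
        refine (measure_mono h5).trans ?_
        rw [step_two hKb]
        refine half_le ?_
        simp only [Pi.one_apply]
        calc (2 : ℝ≥0∞) = 1 + 1 := by norm_num
          _ ≤ _ := by
            refine add_le_add ?_ le_rfl
            exact le_trans le_add_self le_self_add
      · have h5 : ({y | at' y a ∈ ({1} : Set (Fin 4)) ∧ KK z a}
            ∪ {y | at' y (a + m + 1) ∈ ({2} : Set (Fin 4)) ∧ KK z (a + m + 1)}) = ∅ := by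
          ext y
          simp only [mem_union, mem_setOf_eq, mem_empty_iff_false, iff_false, not_or]
          exact ⟨fun h => hKa h.2, fun h => hKb h.2⟩
        rw [h5, measure_empty]
        exact bot_le

end PCABern.NU
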