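import Pool.Agent.Lib.MP_91598f_pr.NU.Rule

/-!
# A particle can reach a site only if nothing was in front of it
-/

open MeasureTheory ProbabilityTheory Filter Topology Set
open scoped ENNReal

namespace PCABern.NU

set_option linter.unusedVariables false
set_option linter.unusedSectionVars false

theorem measurableSet_at (j : ℤ) (T : Set (Fin 4)) :
    MeasurableSet {y : Config (Fin 4) 1 | at' y j ∈ T} :=
  (measurable_pi_apply (s j)) (MeasurableSet.of_discrete)

/-- the particle which could reach `j` at time `t` is absent or something is in front of it -/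
def Bad (t : ℕ) (j : ℤ) (x : Config (Fin 4) 1) : Prop :=
  at' x (j - t) ≠ 3 ∨ ∃ a : ℤ, j - t < a ∧ a ≤ j ∧ at' x a ≠ 0

theorem cases4 (c : Fin 4) : c = 0 ∨ c = 1 ∨ c = 2 ∨ c = 3 := by
  fin_cases c <;> simp

theorem Bad.next {t : ℕ} {j : ℤ} {x y : Config (Fin 4) 1} (h : Compat x y) (hb : Bad (t + 1) j x) :
    Bad t j y := by
  by_cases hy : at' y (j - t) = 3
  · -- then a particle arrives at j - t
    have hK : ¬ KK x (j - t) := by
      intro hK
      rcases (h (j - t)).1 hK with h1 | h1 <;> rw [hy] at h1 <;> exact absurd h1 (by decide)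
    have hP : PP x (j - t) := by
      by_contra hP
      have h1 := (h (j - t)).2.2 hK hP
      rw [hy] at h1
      exact absurd h1 (by decide)
    obtain ⟨-, hc, hl⟩ := hP
    have hr : at' x (j - t + 1) ≠ 2 := fun h2 => hK (Or.inr (Or.inr h2))
    have hl' : at' x (j - ((t + 1 : ℕ) : ℤ)) = 3 := by
      have e : j - ((t + 1 : ℕ) : ℤ) = j - t - 1 := by push_cast; ring
      rw [e]; exact hl
    rcases hb with h1 | ⟨a, ha1, ha2, ha3⟩
    · exact absurd hl' h1
    · have ha4 : j - t ≤ a := by push_cast at ha1; linarith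
      have ha5 : a ≠ j - t := by
        rintro rfl
        exact ha3 hc
      have ha6 : j - t < a := lt_of_le_of_ne ha4 (Ne.symm ha5)
      right
      by_cases h13 : at' x a = 1 ∨ at' x a = 3
      · refine ⟨a, ha6, ha2, ?_⟩
        have hK' : KK x a := by
          rcases h13 with h1 | h1
          · exact Or.inl h1
          · exact Or.inr (Or.inl h1)
        rcases (h a).1 hK' with h1 | h1 <;> rw [h1] <;> decide
      · have h2 : at' x a = 2 := by
          rcases cases4 (at' x a) with h1 | h1 | h1 | h1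
          · exact absurd h1 ha3
          · exact absurd (Or.inl h1) h13
          · exact h1
          · exact absurd (Or.inr h1) h13
        have ha7 : a ≠ j - t + 1 := by
          rintro rfl
          exact hr h2
        have hK' : KK x (a - 1) := by
          refine Or.inr (Or.inr ?_)
          rw [sub_add_cancel]
          exact h2
        refine ⟨a - 1, ?_, by linarith, ?_⟩
        · have : j - t + 1 < a := lt_of_le_of_ne (by linarith [Int.add_one_le_iff.2 ha6]) (Ne.symm ha7)
          linarith
        · rcases (h (a - 1)).1 hK' with h1 | h1 <;> rw [h1] <;> decide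
  · exact Or.inl hy

theorem K_succ_apply (t : ℕ) (x : Config (Fin 4) 1) {E : Set (Config (Fin 4) 1)}
    (hE : MeasurableSet E) : Φ.K (t + 1) x E = ∫⁻ y, Φ.K t y E ∂(Φ.step x) := by
  change (Φ.step x).bind (Φ.K t) E = _
  rw [Measure.bind_apply hE (measurable_K Φ t).aemeasurable]

theorem K_bad (t : ℕ) (j : ℤ) (x : Config (Fin 4) 1) (hb : Bad t j x) :
    Φ.K t x {y | at' y j ∈ ({3} : Set (Fin 4))} = 0 := by
  induction t generalizing x with
  | zero =>
    change Measure.dirac x _ = 0
    rw [Measure.dirac_apply' _ (measurableSet_at j _), indicator_of_notMem]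
    intro h1
    rcases hb with h2 | ⟨a, ha1, ha2, -⟩
    · refine h2 ?_
      simpa using h1
    · push_cast at ha1
      linarith
  | succ t ih =>
    rw [K_succ_apply t x (measurableSet_at j _)]
    have h1 : (fun y => Φ.K t y {y | at' y j ∈ ({3} : Set (Fin 4))}) =ᵐ[Φ.step x] fun _ => 0 := by
      filter_upwards [ae_compat x] with y hy
      exact ih y (hb.next hy)
    rw [lintegral_congr_ae h1]
    simp

/-- the site `j` can be reached by a particle at one time at most -/
theorem exists_bad (x : Config (Fin 4) 1) (j : ℤ) : ∃ T : ℕ, ∀ t, T ≤ t → Bad t j x := by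
  by_cases h : ∃ t₀ : ℕ, ¬ Bad t₀ j x
  · obtain ⟨t₀, ht₀⟩ := h
    unfold Bad at ht₀
    push Not at ht₀
    refine ⟨t₀ + 1, fun t ht => Or.inr ⟨j - t₀, ?_, ?_, ?_⟩⟩
    · have : (t₀ : ℤ) + 1 ≤ t := by exact_mod_cast ht
      linarith
    · have : (0 : ℤ) ≤ t₀ := Int.natCast_nonneg _
      linarith
    · rw [ht₀.1]; decide
  · push Not at h
    exact ⟨0, fun t _ => h t⟩

theorem exists_bad_finite (x : Config (Fin 4) 1) (a b : ℤ) :
    ∃ T : ℕ, ∀ t, T ≤ t → ∀ j, a ≤ j → j ≤ b → Bad t j x := by
  choose T hT using fun j => exists_bad x j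
  refine ⟨(Finset.Icc a b).sup T, fun t ht j h1 h2 => hT j t (le_trans ?_ ht)⟩
  exact Finset.le_sup (f := T) (Finset.mem_Icc.2 ⟨h1, h2⟩)

/-- a particle with nothing on its right -/
def Clear (t : ℕ) (j : ℤ) (x : Config (Fin 4) 1) : Prop :=
  at' x (j - t) = 3 ∧ ∀ a : ℤ, j - t < a → at' x a = 0

theorem Clear.next {t : ℕ} {j : ℤ} {x y : Config (Fin 4) 1} (h : Compat x y)
    (hb : Clear (t + 1) j x) : Clear t j y := by
  obtain ⟨h1, h2⟩ := hb
  have e : j - ((t + 1 : ℕ) : ℤ) = j - t - 1 := by push_cast; ring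
  rw [e] at h1 h2
  have hK : ∀ a : ℤ, j - t - 1 < a → ¬ KK x a := by
    intro a ha hK
    have e1 := h2 a ha
    have e2 := h2 (a + 1) (by linarith)
    rcases hK with h3 | h3 | h3
    · rw [e1] at h3; exact absurd h3 (by decide)
    · rw [e1] at h3; exact absurd h3 (by decide)
    · rw [e2] at h3; exact absurd h3 (by decide)
  constructor
  · refine (h (j - t)).2.1 ⟨hK _ (by linarith), h2 _ (by linarith), h1⟩
  · intro a ha
    refine (h a).2.2 (hK a (by linarith)) ?_
    rintro ⟨-, -, h3⟩
    rw [h2 (a - 1) (by linarith)] at h3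
    exact absurd h3 (by decide)

theorem K_clear (t : ℕ) (j : ℤ) (x : Config (Fin 4) 1) (hb : Clear t j x) :
    Φ.K t x {y | at' y j ∈ ({3} : Set (Fin 4))} = 1 := by
  induction t generalizing x with
  | zero =>
    change Measure.dirac x _ = 1
    rw [Measure.dirac_apply' _ (measurableSet_at j _), indicator_of_mem]
    · rfl
    · have := hb.1
      simpa using this
  | succ t ih =>
    rw [K_succ_apply t x (measurableSet_at j _)]
    have h1 : (fun y => Φ.K t y {y | at' y j ∈ ({3} : Set (Fin 4))}) =ᵐ[Φ.step x] fun _ => 1 := by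
      filter_upwards [ae_compat x] with y hy
      exact ih y (hb.next hy)
    rw [lintegral_congr_ae h1]
    simp

end PCABern.NU
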