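import Pool.Agent.Lib.MP_91598f_pr.SuppMix

/-!
# An ergodic PCA which is not uniformly ergodic: the rule and its deterministic part

Symbols: 0 = empty, 1 = a walker which stays, 2 = a walker which moves to the left,
3 = a particle which moves to the right at speed one and leaves walkers behind.
-/

open MeasureTheory ProbabilityTheory Filter Topology Set
open scoped ENNReal

namespace PCABern.NU

set_option linter.unusedVariables false
set_option linter.unusedSectionVars false

/-- the site `j` of `ℤ^1` -/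
def s (j : ℤ) : Site 1 := fun _ => j

theorem s_add (i j : ℤ) : s i + s j = s (i + j) := rfl

theorem s_inj {i j : ℤ} (h : s i = s j) : i = j := congrFun h 0

theorem eq_s (i : Site 1) : i = s (i 0) := by
  funext k
  have : k = 0 := Subsingleton.elim _ _
  rw [this]
  rfl

/-- the neighbourhood -/
def nbhd : Finset (Site 1) := {s (-1), s 0, s 1}

theorem mem_l : s (-1) ∈ nbhd := by simp [nbhd]
theorem mem_c : s 0 ∈ nbhd := by simp [nbhd]
theorem mem_r : s 1 ∈ nbhd := by simp [nbhd]

/-- a walker is produced -/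
def kk (c r : Fin 4) : Prop := c = 1 ∨ c = 3 ∨ r = 2

/-- a particle arrives -/
def pp (l c r : Fin 4) : Prop := ¬ kk c r ∧ c = 0 ∧ l = 3

open Classical in
/-- the local rule: a walker with a random label, or a particle, or empty -/
noncomputable def loc (l c r : Fin 4) : Measure (Fin 4) :=
  if kk c r then (2⁻¹ : ℝ≥0∞) • Measure.dirac 1 + (2⁻¹ : ℝ≥0∞) • Measure.dirac 2
  else if pp l c r then Measure.dirac 3 else Measure.dirac 0

theorem loc_kk {l c r : Fin 4} (h : kk c r) :
    loc l c r = (2⁻¹ : ℝ≥0∞) • Measure.dirac 1 + (2⁻¹ : ℝ≥0∞) • Measure.dirac 2 := by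
  unfold loc; rw [if_pos h]

theorem loc_pp {l c r : Fin 4} (h : pp l c r) : loc l c r = Measure.dirac 3 := by
  unfold loc; rw [if_neg h.1, if_pos h]

theorem loc_zz {l c r : Fin 4} (h : ¬ kk c r) (h' : ¬ pp l c r) : loc l c r = Measure.dirac 0 := by
  unfold loc; rw [if_neg h, if_neg h']

theorem prob_loc (l c r : Fin 4) : IsProbabilityMeasure (loc l c r) := by
  by_cases h : kk c r
  · rw [loc_kk h]
    constructor
    simp [ENNReal.inv_two_add_inv_two]
  · by_cases h' : pp l c r
    · rw [loc_pp h']; infer_instance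
    · rw [loc_zz h h']; infer_instance

/-- the automaton -/
noncomputable def Φ : PCA (Fin 4) 1 where
  N := nbhd
  rule := fun u => loc (u ⟨s (-1), mem_l⟩) (u ⟨s 0, mem_c⟩) (u ⟨s 1, mem_r⟩)
  prob := fun u => prob_loc _ _ _

/-- the value at the integer `j` -/
def at' (x : Config (Fin 4) 1) (j : ℤ) : Fin 4 := x (s j)

/-- a walker at `j` in the next configuration -/
def KK (x : Config (Fin 4) 1) (j : ℤ) : Prop := kk (at' x j) (at' x (j + 1))

/-- a particle at `j` in the next configuration -/
def PP (x : Config (Fin 4) 1) (j : ℤ) : Prop := pp (at' x (j - 1)) (at' x j) (at' x (j + 1))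

theorem rule_eq (x : Config (Fin 4) 1) (i : Site 1) :
    Φ.rule (fun n : Φ.N => x (i + n.1)) = loc (at' x (i 0 - 1)) (at' x (i 0)) (at' x (i 0 + 1)) := by
  have hi := eq_s i
  have e1 : i + s (-1) = s (i 0 - 1) := by
    conv_lhs => rw [hi]
    rfl
  have e2 : i + s 0 = s (i 0) := by
    conv_lhs => rw [hi]
    rw [s_add, add_zero]
  have e3 : i + s 1 = s (i 0 + 1) := by
    conv_lhs => rw [hi]
    rfl
  change loc (x (i + s (-1))) (x (i + s 0)) (x (i + s 1)) = _
  rw [e1, e2, e3]
  rfl

/-- a compatible transition -/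
def Compat (x y : Config (Fin 4) 1) : Prop :=
  ∀ j : ℤ, (KK x j → at' y j = 1 ∨ at' y j = 2) ∧ (PP x j → at' y j = 3) ∧
    (¬ KK x j → ¬ PP x j → at' y j = 0)

theorem step_eval (x : Config (Fin 4) 1) (j : ℤ) (T : Set (Fin 4)) :
    Φ.step x {y | at' y j ∈ T} = loc (at' x (j - 1)) (at' x j) (at' x (j + 1)) T := by
  have h1 : MeasurePreserving (fun y : Config (Fin 4) 1 => y (s j))
      (Measure.infinitePi (fun i : Site 1 => Φ.rule (fun n : Φ.N => x (i + n.1))))
      (Φ.rule (fun n : Φ.N => x (s j + n.1))) := measurePreserving_eval_infinitePi _ _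
  have h2 := h1.measure_preimage (s := T) (MeasurableSet.of_discrete).nullMeasurableSet
  have h3 : Φ.rule (fun n : Φ.N => x (s j + n.1)) = loc (at' x (j - 1)) (at' x j) (at' x (j + 1)) :=
    rule_eq x (s j)
  rw [h3] at h2
  exact h2

theorem ae_compat (x : Config (Fin 4) 1) : ∀ᵐ y ∂(Φ.step x), Compat x y := by
  unfold Compat
  rw [ae_all_iff]
  intro j
  by_cases h : KK x j
  · have h0 : Φ.step x {y | at' y j ∈ ({0, 3} : Set (Fin 4))} = 0 := by
      rw [step_eval, loc_kk h]
      simp [Measure.dirac_apply' _ (MeasurableSet.of_discrete)]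
    have h1 : ∀ᵐ y ∂(Φ.step x), ¬ (at' y j ∈ ({0, 3} : Set (Fin 4))) := by
      rw [ae_iff]
      simpa only [not_not] using h0
    filter_upwards [h1] with y hy
    refine ⟨fun _ => ?_, fun h' => absurd h h'.1, fun h' => absurd h h'⟩
    have : at' y j = 0 ∨ at' y j = 1 ∨ at' y j = 2 ∨ at' y j = 3 := by
      generalize at' y j = c
      fin_cases c <;> simp
    rcases this with h2 | h2 | h2 | h2
    · exact absurd (Or.inl h2) hy
    · exact Or.inl h2
    · exact Or.inr h2
    · exact absurd (Or.inr h2) hy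
  · by_cases h' : PP x j
    · have h0 : Φ.step x {y | at' y j ∈ ({3}ᶜ : Set (Fin 4))} = 0 := by
        rw [step_eval, loc_pp h']
        simp [Measure.dirac_apply' _ (MeasurableSet.of_discrete)]
      have h1 : ∀ᵐ y ∂(Φ.step x), ¬ (at' y j ∈ ({3}ᶜ : Set (Fin 4))) := by
        rw [ae_iff]
        simpa using h0
      filter_upwards [h1] with y hy
      refine ⟨fun h2 => absurd h2 h, fun _ => ?_, fun _ h2 => absurd h' h2⟩
      simpa using hy
    · have h0 : Φ.step x {y | at' y j ∈ ({0}ᶜ : Set (Fin 4))} = 0 := by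
        rw [step_eval, loc_zz h h']
        simp [Measure.dirac_apply' _ (MeasurableSet.of_discrete)]
      have h1 : ∀ᵐ y ∂(Φ.step x), ¬ (at' y j ∈ ({0}ᶜ : Set (Fin 4))) := by
        rw [ae_iff]
        simpa using h0
      filter_upwards [h1] with y hy
      refine ⟨fun h2 => absurd h2 h, fun h2 => absurd h2 h', fun _ _ => ?_⟩
      simpa using hy

end PCABern.NU
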