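import Pool.Agent.Lib.MP_91598f_pr.NU.Occ

/-!
# The walkers disappear from every window
-/

open MeasureTheory ProbabilityTheory Filter Topology Set
open scoped ENNReal

namespace PCABern.NU

set_option linter.unusedVariables false
set_option linter.unusedSectionVars false

/-- survival probability of the lazy walk -/
noncomputable def g : ℕ → ℕ → ℝ
  | 0, 0 => 0
  | 0, _ + 1 => 1
  | _ + 1, 0 => 0
  | u + 1, n + 1 => (g u n + 2 * g u (n + 1) + g u (n + 2)) / 4

theorem g_zero (u : ℕ) : g u 0 = 0 := by cases u <;> rfl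

theorem g_succ (u n : ℕ) : g (u + 1) (n + 1) = (g u n + 2 * g u (n + 1) + g u (n + 2)) / 4 := rfl

theorem g_nonneg (u n : ℕ) : 0 ≤ g u n := by
  induction u generalizing n with
  | zero => cases n with
    | zero => exact le_rfl
    | succ n => exact zero_le_one
  | succ u ih => cases n with
    | zero => exact le_rfl
    | succ n =>
      rw [g_succ]
      have h1 := ih n
      have h2 := ih (n + 1)
      have h3 := ih (n + 2)
      linarith

theorem g_le_one (u n : ℕ) : g u n ≤ 1 := by
  induction u generalizing n with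
  | zero => cases n with
    | zero => exact zero_le_one
    | succ n => exact le_rfl
  | succ u ih => cases n with
    | zero => exact zero_le_one
    | succ n =>
      rw [g_succ]
      have h1 := ih n
      have h2 := ih (n + 1)
      have h3 := ih (n + 2)
      linarith

/-- a supersolution -/
theorem g_bound (M : ℕ) (hM : 0 < M) (u n : ℕ) (hn : n ≤ M) :
    g u n ≤ n / M + (1 - 1 / (2 * (1 + (M : ℝ) ^ 2))) ^ u * (1 + n * (M - n)) := by
  have hM' : (0 : ℝ) < M := by exact_mod_cast hM
  set L : ℝ := 1 - 1 / (2 * (1 + (M : ℝ) ^ 2)) with hL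
  have hL0 : 0 ≤ L := by
    rw [hL, sub_nonneg, div_le_one (by positivity)]
    nlinarith
  induction u generalizing n with
  | zero =>
    have hn' : (n : ℝ) ≤ M := by exact_mod_cast hn
    have h1 : (0 : ℝ) ≤ n * (M - n) := mul_nonneg (Nat.cast_nonneg n) (by linarith)
    have h2 : (0 : ℝ) ≤ n / M := by positivity
    rw [pow_zero, one_mul]
    have := g_le_one 0 n
    linarith
  | succ u ih =>
    have hn' : (n : ℝ) ≤ M := by exact_mod_cast hn
    have hW : (0 : ℝ) ≤ 1 + n * (M - n) := by
      have := mul_nonneg (Nat.cast_nonneg n : (0 : ℝ) ≤ n) (show (0 : ℝ) ≤ M - n by linarith)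
      linarith
    rcases Nat.eq_zero_or_pos n with h0 | h0
    · subst h0
      rw [g_zero]
      positivity
    · rcases Nat.lt_or_ge n M with h1 | h1
      · obtain ⟨k, rfl⟩ : ∃ k, n = k + 1 := ⟨n - 1, by omega⟩
        rw [g_succ]
        have i1 := ih k (by omega)
        have i2 := ih (k + 1) (by omega)
        have i3 := ih (k + 2) (by omega)
        push_cast at i1 i2 i3 hW ⊢
        have key : L ^ u * (1 + (k + 1) * (M - (k + 1)) - 1 / 2)
            ≤ L ^ (u + 1) * (1 + ((k : ℝ) + 1) * (M - (k + 1))) := by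
          rw [pow_succ, mul_assoc]
          refine mul_le_mul_of_nonneg_left ?_ (pow_nonneg hL0 u)
          have hWM : 1 + ((k : ℝ) + 1) * (M - (k + 1)) ≤ 1 + (M : ℝ) ^ 2 := by
            have h2 : (k : ℝ) + 1 ≤ M := by exact_mod_cast hn
            have h3 : (0 : ℝ) ≤ k := Nat.cast_nonneg k
            nlinarith
          have h4 : (1 / (2 * (1 + (M : ℝ) ^ 2))) * (1 + ((k : ℝ) + 1) * (M - (k + 1))) ≤ 1 / 2 := by
            rw [div_mul_eq_mul_div, one_mul, div_le_div_iff₀ (by positivity) (by norm_num)]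
            linarith
          rw [hL, sub_mul, one_mul]
          linarith
        refine le_trans ?_ (add_le_add le_rfl key)
        have e : (((k : ℝ) / M + L ^ u * (1 + k * (M - k)))
            + 2 * (((k : ℝ) + 1) / M + L ^ u * (1 + (k + 1) * (M - (k + 1))))
            + (((k : ℝ) + 2) / M + L ^ u * (1 + (k + 2) * (M - (k + 2))))) / 4
            = ((k : ℝ) + 1) / M + L ^ u * (1 + (k + 1) * (M - (k + 1)) - 1 / 2) := by
          field_simp
          ring
        rw [← e]
        linarith
      · have : n = M := le_antisymm hn h1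
        subst this
        have h2 := g_le_one (u + 1) n
        have h3 : (n : ℝ) / n = 1 := div_self hM'.ne'
        rw [h3, sub_self, mul_zero, add_zero, mul_one]
        have := pow_nonneg hL0 (u + 1)
        linarith

theorem tendsto_g : Tendsto (fun u => g u 1) atTop (𝓝 0) := by
  rw [Metric.tendsto_atTop]
  intro ε hε
  obtain ⟨M, hM⟩ := exists_nat_gt (2 / ε)
  have hM0 : (0 : ℝ) < M := lt_trans (by positivity) hM
  have hMp : 0 < M := by exact_mod_cast hM0
  set L : ℝ := 1 - 1 / (2 * (1 + (M : ℝ) ^ 2)) with hL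
  have hL0 : 0 ≤ L := by
    rw [hL, sub_nonneg, div_le_one (by positivity)]
    nlinarith
  have hL1 : L < 1 := by
    rw [hL]
    have : (0 : ℝ) < 1 / (2 * (1 + (M : ℝ) ^ 2)) := by positivity
    linarith
  have h1 : Tendsto (fun u : ℕ => L ^ u * (1 + (1 : ℝ) * (M - 1))) atTop (𝓝 0) := by
    have := (tendsto_pow_atTop_nhds_zero_of_lt_one hL0 hL1).mul_const (1 + (1 : ℝ) * (M - 1))
    simpa using this
  obtain ⟨N, hN⟩ := (Metric.tendsto_atTop.1 h1) (ε / 2) (by positivity)
  refine ⟨N, fun u hu => ?_⟩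
  have h2 := g_bound M hMp u 1 hMp
  have h3 := hN u hu
  rw [Real.dist_0_eq_abs] at h3 ⊢
  rw [abs_of_nonneg (g_nonneg u 1)]
  have h4 : (1 : ℝ) / M < ε / 2 := by
    rw [div_lt_iff₀ hM0]
    have := (div_lt_iff₀ hε).1 hM
    nlinarith
  have h5 := (abs_lt.1 h3).2
  push_cast at h2
  linarith

theorem K_one : Φ.K 1 = Φ.step := by
  funext x
  change (Φ.step x).bind Measure.dirac = _
  exact Measure.bind_dirac

theorem K_last (t : ℕ) (x : Config (Fin 4) 1) {E : Set (Config (Fin 4) 1)}
    (hE : MeasurableSet E) : Φ.K (t + 1) x E = ∫⁻ y, Φ.step y E ∂(Φ.K t x) := by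
  rw [K_add, K_one, Measure.bind_apply hE (measurable_step Φ).aemeasurable]

theorem K_part (s' : ℕ) (x : Config (Fin 4) 1) (a : ℤ) (n : ℕ)
    (h : ∀ j, a ≤ j → j < a + n → Bad s' j x) : Φ.K s' x (PartS a n) = 0 := by
  have hsub : PartS a n ⊆ ⋃ i ∈ Finset.range n,
      {y : Config (Fin 4) 1 | at' y (a + i) ∈ ({3} : Set (Fin 4))} := by
    rintro y ⟨i, hi, hy⟩
    simp only [mem_iUnion, Finset.mem_range]
    exact ⟨i, hi, hy⟩
  refine measure_mono_null hsub ?_
  refine (measure_biUnion_null_iff (I := (Finset.range n : Set ℕ)) (Finset.countable_toSet _)).2 ?_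
  intro i hi
  have hi' : (i : ℤ) < n := by exact_mod_cast Finset.mem_range.1 hi
  have h0 : (0 : ℤ) ≤ i := Int.natCast_nonneg _
  exact K_bad s' (a + i) x (h _ (by linarith) (by linarith))

theorem K_occ_rec (t : ℕ) (x : Config (Fin 4) 1) (a : ℤ) (m : ℕ)
    (h : Φ.K (t + 1) x (PartS a (m + 1)) = 0) :
    Φ.K (t + 1) x (OccS a (m + 1)) ≤
      4⁻¹ * (Φ.K t x (OccS a (m + 1)) + Φ.K t x (OccS a (m + 2))
        + Φ.K t x (OccS (a + 1) m) + Φ.K t x (OccS (a + 1) (m + 1))) := by
  rw [K_last t x (measurableSet_OccS _ _)]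
  refine (lintegral_mono (fun z => step_occ z a m)).trans ?_
  have hmi : ∀ b k, Measurable ((OccS b k).indicator (1 : Config (Fin 4) 1 → ℝ≥0∞)) :=
    fun b k => measurable_const.indicator (measurableSet_OccS b k)
  have hmp : Measurable (fun z => Φ.step z (PartS a (m + 1))) :=
    (Measure.measurable_coe (measurableSet_PartS _ _)).comp (measurable_step Φ)
  rw [lintegral_add_right _ hmp]
  have h0 : ∫⁻ z, Φ.step z (PartS a (m + 1)) ∂(Φ.K t x) = 0 := by
    rw [← K_last t x (measurableSet_PartS _ _)]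
    exact h
  have hm4 : Measurable (fun z => (OccS a (m + 1)).indicator (1 : Config (Fin 4) 1 → ℝ≥0∞) z
      + (OccS a (m + 2)).indicator 1 z + (OccS (a + 1) m).indicator 1 z
      + (OccS (a + 1) (m + 1)).indicator 1 z) :=
    (((hmi _ _).add (hmi _ _)).add (hmi _ _)).add (hmi _ _)
  rw [h0, add_zero, lintegral_const_mul _ hm4]
  rw [lintegral_add_right _ (hmi _ _), lintegral_add_right _ (hmi _ _),
    lintegral_add_right _ (hmi _ _), lintegral_indicator_one (measurableSet_OccS _ _),
    lintegral_indicator_one (measurableSet_OccS _ _),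
    lintegral_indicator_one (measurableSet_OccS _ _),
    lintegral_indicator_one (measurableSet_OccS _ _)]

theorem K_occ_le (x : Config (Fin 4) 1) (a₀ b₀ : ℤ) (T : ℕ)
    (hT : ∀ t, T ≤ t → ∀ j, a₀ ≤ j → j ≤ b₀ → Bad t j x) (u : ℕ) :
    ∀ t, T + u ≤ t → ∀ (a : ℤ) (n : ℕ), a₀ ≤ a → a + n + u ≤ b₀ →
      (Φ.K t x (OccS a n)).toReal ≤ g u n := by
  induction u with
  | zero =>
    intro t ht a n h1 h2
    cases n with
    | zero =>
      have : OccS a 0 = ∅ := by
        ext y
        simp [OccS]
      rw [this]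
      simp [g]
    | succ n =>
      have := prob_K Φ t x
      exact measureReal_le_one
  | succ u ih =>
    intro t ht a n h1 h2
    cases n with
    | zero =>
      have : OccS a 0 = ∅ := by
        ext y
        simp [OccS]
      rw [this]
      simp [g]
    | succ m =>
      obtain ⟨t', rfl⟩ : ∃ t', t = t' + 1 := ⟨t - 1, by omega⟩
      push_cast at h2
      have hp : Φ.K (t' + 1) x (PartS a (m + 1)) = 0 := by
        refine K_part _ _ _ _ (fun j hj1 hj2 => hT _ (by omega) _ (by linarith) ?_)
        push_cast at hj2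
        have : (0 : ℤ) ≤ u := Int.natCast_nonneg _
        linarith
      have h3 := K_occ_rec t' x a m hp
      have hpr := prob_K Φ t' x
      have hpr' := prob_K Φ (t' + 1) x
      have hfin : ∀ b k, Φ.K t' x (OccS b k) ≠ ∞ := fun b k => measure_ne_top _ _
      have h4 := ENNReal.toReal_mono (ENNReal.mul_ne_top (by norm_num)
        (ENNReal.add_ne_top.2 ⟨ENNReal.add_ne_top.2 ⟨ENNReal.add_ne_top.2
          ⟨hfin a (m + 1), hfin a (m + 2)⟩, hfin (a + 1) m⟩, hfin (a + 1) (m + 1)⟩)) h3
      rw [ENNReal.toReal_mul, ENNReal.toReal_add (ENNReal.add_ne_top.2 ⟨ENNReal.add_ne_top.2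
          ⟨hfin a (m + 1), hfin a (m + 2)⟩, hfin (a + 1) m⟩) (hfin _ _),
        ENNReal.toReal_add (ENNReal.add_ne_top.2 ⟨hfin a (m + 1), hfin a (m + 2)⟩) (hfin _ _),
        ENNReal.toReal_add (hfin _ _) (hfin _ _)] at h4
      have e4 : ((4 : ℝ≥0∞)⁻¹).toReal = 1 / 4 := by
        rw [ENNReal.toReal_inv]
        norm_num
      rw [e4] at h4
      rw [g_succ]
      have i1 := ih t' (by omega) a (m + 1) h1 (by push_cast; linarith)
      have i2 := ih t' (by omega) a (m + 2) h1 (by push_cast; linarith)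
      have i3 := ih t' (by omega) (a + 1) m (by linarith) (by linarith)
      have i4 := ih t' (by omega) (a + 1) (m + 1) (by linarith) (by push_cast; linarith)
      linarith

/-- the probability that a window site is not empty tends to zero -/
theorem tendsto_site (x : Config (Fin 4) 1) (j : ℤ) :
    Tendsto (fun t => (Φ.K t x {y | at' y j ∈ ({0}ᶜ : Set (Fin 4))}).toReal) atTop (𝓝 0) := by
  rw [Metric.tendsto_atTop]
  intro ε hε
  obtain ⟨u, hu⟩ := (Metric.tendsto_atTop.1 tendsto_g) ε hε
  have hu' := hu u le_rfl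
  rw [Real.dist_0_eq_abs, abs_of_nonneg (g_nonneg _ _)] at hu'
  obtain ⟨T, hT⟩ := exists_bad_finite x j (j + 1 + u)
  refine ⟨T + u + 1, fun t ht => ?_⟩
  obtain ⟨t', rfl⟩ : ∃ t', t = t' + 1 := ⟨t - 1, by omega⟩
  rw [Real.dist_0_eq_abs, abs_of_nonneg ENNReal.toReal_nonneg]
  refine lt_of_le_of_lt ?_ hu'
  have h1 := K_occ_le x j (j + 1 + u) T hT u t' (by omega) j 1 le_rfl (by push_cast; linarith)
  refine le_trans (ENNReal.toReal_mono ?_ ?_) h1
  · have := prob_K Φ t' x
    exact measure_ne_top _ _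
  · -- the site is not empty: a walker or a particle
    rw [K_last t' x (measurableSet_at _ _)]
    have hPz : Φ.K (t' + 1) x {y | at' y j ∈ ({3} : Set (Fin 4))} = 0 :=
      K_bad _ _ _ (hT _ (by omega) j le_rfl (by
        have : (0 : ℤ) ≤ u := Int.natCast_nonneg _
        linarith))
    have hle : ∀ z, Φ.step z {y | at' y j ∈ ({0}ᶜ : Set (Fin 4))} ≤
        (OccS j 1).indicator 1 z + Φ.step z {y | at' y j ∈ ({3} : Set (Fin 4))} := by
      intro z
      by_cases hz : z ∈ OccS j 1
      · rw [indicator_of_mem hz]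
        exact le_trans prob_le_one le_self_add
      · rw [indicator_of_notMem hz, zero_add]
        have hK : ¬ KK z j := fun hK => hz ⟨0, by omega, by simpa using hK⟩
        refine measure_mono_ae ?_
        filter_upwards [ae_compat z] with y hy
        intro h0
        by_cases hP : PP z j
        · exact (hy j).2.1 hP
        · exact absurd ((hy j).2.2 hK hP) h0
    refine (lintegral_mono hle).trans ?_
    have hm : Measurable (fun z => Φ.step z {y | at' y j ∈ ({3} : Set (Fin 4))}) :=
      (Measure.measurable_coe (measurableSet_at _ _)).comp (measurable_step Φ)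
    rw [lintegral_add_right _ hm, ← K_last t' x (measurableSet_at _ _), hPz, add_zero,
      lintegral_indicator_one (measurableSet_OccS _ _)]

end PCABern.NU
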